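import Pool.Agent.H27.EB.Hb
import Pool.Agent.H19.TL.Tie
import Pool.Agent.H73.ZP.Ag

/-!
# Class (B): the theorem in the plane `V = ℝ × ℝ`

`L` is compact and convex with three pairwise antipodal points, `A - B ⊆ L - L`: then `A` or `B` is
covered by three translates of `L`.
-/

set_option autoImplicit false

open Real

namespace H27EB

open ZP TL

/-- three pairwise antipodal points are not collinear -/
lemma at_cr {L : Set V} {p q r a b c : V} (h : AT L p q r a b c) :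
    cr (q - p) (r - p) ≠ 0 := by
  intro h0
  have a1 := h.a1 r h.hr
  have a2 := h.a2 r h.hr
  have b1 := h.b1 q h.hq
  have b2 := h.b2 q h.hq
  have c1 := h.c1 p h.hp
  have c2 := h.c2 p h.hp
  have a0 := h.apq
  have b0 := h.bpr
  have c0 := h.crq
  set u := q - p with hu
  set w := r - p with hw
  have e : ∀ n : V, dt n q = dt n p + dt n u ∧ dt n r = dt n p + dt n w := by
    intro n
    constructor
    · rw [hu, dt_sub]; ring
    · rw [hw, dt_sub]; ring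
  rw [(e a).1] at a0 a2
  rw [(e a).2] at a1 a2
  rw [(e b).2] at b0 b2
  rw [(e b).1] at b1 b2
  rw [(e c).1] at c0 c2
  rw [(e c).2] at c0 c1
  -- `w` is a multiple of `u`
  have hu0 : u ≠ 0 := by
    intro h1
    rw [h1] at a0
    simp [dt] at a0
  have hn : 0 < u.1 ^ 2 + u.2 ^ 2 := by
    rcases eq_or_ne u.1 0 with h1 | h1
    · rcases eq_or_ne u.2 0 with h2 | h2
      · exact absurd (Prod.ext h1 h2) hu0
      · positivity
    · positivity
  set t : ℝ := (u.1 * w.1 + u.2 * w.2) / (u.1 ^ 2 + u.2 ^ 2) with ht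
  have hwt : w = t • u := by
    unfold cr at h0
    ext
    · rw [ht, Prod.smul_fst, smul_eq_mul]
      field_simp
      linear_combination (-u.2) * h0
    · rw [ht, Prod.smul_snd, smul_eq_mul]
      field_simp
      linear_combination (u.1) * h0
  rw [hwt] at a1 a2 b0 b2 c0 c1
  rw [dt_smul] at a1 a2 b0 b2 c0 c1
  have pa : 0 < dt a u := by linarith
  have t0 : 0 ≤ t := by
    by_contra hc
    push Not at hc
    nlinarith [mul_neg_of_neg_of_pos hc pa]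
  have t1 : t ≤ 1 := by
    by_contra hc
    push Not at hc
    nlinarith [mul_pos (sub_pos.2 hc) pa]
  have tb : 0 < t * dt b u := by linarith
  have pb : 0 < dt b u := by
    by_contra hc
    push Not at hc
    nlinarith [mul_nonneg t0 (neg_nonneg.2 hc)]
  have t2 : 1 ≤ t := by
    by_contra hc
    push Not at hc
    nlinarith [mul_pos (sub_pos.2 hc) pb]
  have t3 : t = 1 := le_antisymm t1 t2
  rw [t3] at c0
  linarith

/-- the body contains a ball -/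
lemma at_ball {L : Set V} (hL : Convex ℝ L) {p q r a b c : V} (h : AT L p q r a b c) :
    ∃ (x₀ : V) (ρ : ℝ), 0 < ρ ∧ ∀ v : V, ‖v‖ ≤ ρ → x₀ + v ∈ L := by
  have hD := at_cr h
  set D := cr (q - p) (r - p) with hDd
  set M : ℝ := ‖q - p‖ + ‖r - p‖ + 1 with hM
  have hM0 : 0 < M := by positivity
  have hD0 : 0 < |D| := abs_pos.2 hD
  refine ⟨(1 / 3 : ℝ) • p + (1 / 3 : ℝ) • q + (1 / 3 : ℝ) • r, |D| / (12 * M), by positivity, ?_⟩
  intro v hv
  have hcr : ∀ x y : V, |cr x y| ≤ 2 * ‖x‖ * ‖y‖ := by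
    intro x y
    have h1 := norm_fst_le x
    have h2 := norm_snd_le x
    have h3 := norm_fst_le y
    have h4 := norm_snd_le y
    rw [Real.norm_eq_abs] at h1 h2 h3 h4
    unfold cr
    calc |x.1 * y.2 - x.2 * y.1| ≤ |x.1 * y.2| + |x.2 * y.1| := abs_sub _ _
      _ = |x.1| * |y.2| + |x.2| * |y.1| := by rw [abs_mul, abs_mul]
      _ ≤ ‖x‖ * ‖y‖ + ‖x‖ * ‖y‖ := by gcongr
      _ = 2 * ‖x‖ * ‖y‖ := by ring
  set α : ℝ := cr v (r - p) / D with hα
  set β : ℝ := cr (q - p) v / D with hβ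
  have hv2 : ‖v‖ * M ≤ |D| / 12 := by
    calc ‖v‖ * M ≤ |D| / (12 * M) * M := mul_le_mul_of_nonneg_right hv hM0.le
      _ = |D| / 12 := by field_simp
  have hαb : |α| ≤ 1 / 6 := by
    rw [hα, abs_div, div_le_iff₀ hD0]
    have h1 := hcr v (r - p)
    have h2 : ‖v‖ * ‖r - p‖ ≤ ‖v‖ * M := by
      apply mul_le_mul_of_nonneg_left _ (norm_nonneg v)
      rw [hM]
      linarith [norm_nonneg (q - p)]
    linarith
  have hβb : |β| ≤ 1 / 6 := by
    rw [hβ, abs_div, div_le_iff₀ hD0]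
    have h1 := hcr (q - p) v
    have h2 : ‖q - p‖ * ‖v‖ ≤ ‖v‖ * M := by
      rw [mul_comm]
      apply mul_le_mul_of_nonneg_left _ (norm_nonneg v)
      rw [hM]
      linarith [norm_nonneg (r - p)]
    linarith
  rw [abs_le] at hαb hβb
  have hvv : v = α • (q - p) + β • (r - p) := by
    have hDe : D = (q.1 - p.1) * (r.2 - p.2) - (q.2 - p.2) * (r.1 - p.1) := by
      rw [hDd]; simp [cr]
    ext
    · simp only [Prod.fst_add, Prod.smul_fst, Prod.fst_sub, smul_eq_mul, hα, hβ, cr,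
        Prod.snd_sub]
      field_simp
      rw [hDe]
      ring
    · simp only [Prod.snd_add, Prod.smul_snd, Prod.snd_sub, smul_eq_mul, hα, hβ, cr,
        Prod.fst_sub]
      field_simp
      rw [hDe]
      ring
  have key : (1 / 3 : ℝ) • p + (1 / 3 : ℝ) • q + (1 / 3 : ℝ) • r + v =
      (1 / 3 - α - β) • p + (1 / 3 + α) • q + (1 / 3 + β) • r := by
    conv_lhs => rw [hvv]
    module
  rw [key]
  have hsum : (1 / 3 - α - β) + (1 / 3 + α) + (1 / 3 + β) = 1 := by ring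
  have h1 : 0 ≤ 1 / 3 - α - β := by linarith
  have h2 : 0 ≤ 1 / 3 + α := by linarith
  have h3 : 0 ≤ 1 / 3 + β := by linarith
  have := hL.sum_mem (t := Finset.univ) (w := ![1 / 3 - α - β, 1 / 3 + α, 1 / 3 + β])
    (z := ![p, q, r]) (by
      intro i _
      fin_cases i
      · exact h1
      · exact h2
      · exact h3) (by
      simp only [Fin.sum_univ_three, Matrix.cons_val_zero, Matrix.cons_val_one, Matrix.cons_val]
      exact hsum) (by
      intro i _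
      fin_cases i
      · exact h.hp
      · exact h.hq
      · exact h.hr)
  simpa only [Fin.sum_univ_three, Matrix.cons_val_zero, Matrix.cons_val_one,
    Matrix.cons_val] using this

/-- the covering for one family which has no three bad arcs -/
lemma Ae2_cov {L : Set V} (hL : IsCompact L) (hLc : Convex ℝ L) {p q r a b c : V}
    (h : AT L p q r a b c) {x₀ : V} {ρ s e : ℝ} (hρ : 0 < ρ) (hs : 0 < s)
    (hball : ∀ v : V, ‖v‖ ≤ ρ → x₀ + v ∈ L) (he : e = s * ρ / 8) {R ε : ℝ}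
    (hR : ∀ y ∈ L, ‖y - x₀‖ ≤ R) (hsR : 2 * s * R ≤ ε) {l cA : ℝ → V} (hl : Bd l)
    (hl2 : ∀ θ, ∃ w ∈ L, dt (uu θ) (l θ) ≤ dt (uu θ) w + 4 * e) (hcA : Bd cA) (A : Finset V)
    (hA1 : ∀ θ, ∀ w ∈ A, dt (uu θ) w ≤ dt (uu θ) (cA θ)) (hb : ¬ Bad3 l cA) :
    ∃ p : Fin 3 → V, ∀ a ∈ A, ∃ k, ∀ θ, ∃ y ∈ L, dt (uu θ) (a - p k) ≤ dt (uu θ) y + ε := by
  have h1s : 0 < 1 + s := by linarith
  have hat := h.hom h1s ((-s) • x₀)
  set L' : Set V := (fun x => (1 + s) • x + (-s) • x₀) '' L with hL'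
  have hL'c : Convex ℝ L' := by
    rw [hL']
    rintro _ ⟨x, hx, rfl⟩ _ ⟨y, hy, rfl⟩ α β hα hβ hαβ
    refine ⟨α • x + β • y, hLc hx hy hα hβ hαβ, ?_⟩
    have h6 : (α + β) • ((-s) • x₀) = (-s) • x₀ := by rw [hαβ, one_smul]
    simp only
    conv_lhs => rw [← h6]
    module
  have hL'k : IsCompact L' := by
    rw [hL']
    exact hL.image (by fun_prop)
  obtain ⟨g, hg⟩ := tieL hL'c hat
  have hT : TieP L' g := by
    rintro x₁ x₂ x₃ h12 h23 ⟨o, h3, h1⟩ e1 e2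
    exact hg x₁ x₂ x₃ e1 e2 h12 ⟨o, h1, h3⟩ h23
  have he0 : 0 < e := by rw [he]; positivity
  have hun : ∀ θ, ‖uu θ‖ ≤ 1 := Ae_norm
  have hsub : ∀ x ∈ body l, ∀ v : V, ‖v‖ ≤ e → x + v ∈ L' := by
    intro x hx v hv
    apply af_sep L' hL'k hL'c
    intro θ
    obtain ⟨w, hw, hw2⟩ := hl2 θ
    refine ⟨w + (s * ρ) • uu θ, ?_, ?_⟩
    · refine ⟨(1 / (1 + s)) • w + (s / (1 + s)) • (x₀ + ρ • uu θ), ?_, ?_⟩
      · refine hLc hw (hball _ ?_) (by positivity) (by positivity) (by field_simp)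
        rw [norm_smul, Real.norm_of_nonneg hρ.le]
        calc ρ * ‖uu θ‖ ≤ ρ * 1 := mul_le_mul_of_nonneg_left (hun θ) hρ.le
          _ = ρ := mul_one ρ
      · ext
        · simp only [Prod.fst_add, Prod.smul_fst, smul_eq_mul]
          field_simp
          ring
        · simp only [Prod.snd_add, Prod.smul_snd, smul_eq_mul]
          field_simp
          ring
    · rw [dt_add, dt_add, dt_smul, dt_uu_uu, sub_self, Real.cos_zero, mul_one]
      have h3 := hx θ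
      have h4 : dt (uu θ) v ≤ 2 * e := by
        refine (le_abs_self _).trans ((dt_le _ _).trans ?_)
        have := norm_nonneg v
        have := norm_nonneg (uu θ)
        nlinarith [hun θ]
      have h5 : s * ρ = 8 * e := by rw [he]; ring
      rw [h5]
      linarith
  obtain ⟨P, hP⟩ := cover' hl hcA hL'c g hT he0 hsub hb
  refine ⟨P, fun a ha => ?_⟩
  obtain ⟨k, y, hy, hyk⟩ := hP a (fun θ => hA1 θ a ha)
  refine ⟨k, fun θ => ⟨y, hy, ?_⟩⟩
  rw [← hyk]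
  have h1 : (1 + s) • y + (-s) • x₀ = y + s • (y - x₀) := by module
  simp only
  rw [h1, dt_add, dt_smul]
  have h2 : dt (uu θ) (y - x₀) ≤ 2 * R := by
    refine (le_abs_self _).trans ((dt_le _ _).trans ?_)
    have := norm_nonneg (y - x₀)
    have := norm_nonneg (uu θ)
    nlinarith [hun θ, hR y hy]
  have h3 := mul_le_mul_of_nonneg_left h2 hs.le
  linarith

theorem Ae2 (L : Set V) (hL : IsCompact L) (hLc : Convex ℝ L) {p q r a b c : V}
    (h : AT L p q r a b c) (A B : Finset V)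
    (hAB : ∀ a ∈ A, ∀ b ∈ B, ∃ y ∈ L, ∃ z ∈ L, a - b = y - z) {ε : ℝ} (hε : 0 < ε) :
    (∃ p : Fin 3 → V, ∀ a ∈ A, ∃ k, ∀ θ, ∃ y ∈ L, dt (uu θ) (a - p k) ≤ dt (uu θ) y + ε) ∨
    (∃ p : Fin 3 → V, ∀ b ∈ B, ∃ k, ∀ θ, ∃ y ∈ L, dt (uu θ) (b - p k) ≤ dt (uu θ) y + ε) := by
  have hLne : L.Nonempty := ⟨p, h.hp⟩
  rcases A.eq_empty_or_nonempty with rfl | hAne
  · left
    exact ⟨fun _ => 0, fun a ha => absurd ha (Finset.notMem_empty a)⟩
  rcases B.eq_empty_or_nonempty with rfl | hBne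
  · right
    exact ⟨fun _ => 0, fun a ha => absurd ha (Finset.notMem_empty a)⟩
  obtain ⟨x₀, ρ, hρ, hball⟩ := at_ball hLc h
  obtain ⟨R₀, hR₀⟩ := hL.isBounded.exists_norm_le
  set R : ℝ := |R₀| + ‖x₀‖ + 1 with hR
  have hR1 : 0 < R := by positivity
  have hRb : ∀ y ∈ L, ‖y - x₀‖ ≤ R := by
    intro y hy
    have h1 := hR₀ y hy
    have h2 := norm_sub_le y x₀
    have h3 := le_abs_self R₀
    rw [hR]
    linarith
  obtain ⟨s, hs⟩ : ∃ s, s = ε / (2 * R) := ⟨_, rfl⟩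
  have hs0 : 0 < s := by rw [hs]; positivity
  have hsR : 2 * s * R ≤ ε := by
    rw [hs]
    apply le_of_eq
    field_simp
  obtain ⟨e, hee⟩ : ∃ e, e = s * ρ / 8 := ⟨_, rfl⟩
  have he : 0 < e := by rw [hee]; positivity
  have he3 : 0 < e / 3 := by positivity
  obtain ⟨l, hl, hl1, hl2⟩ := Smb L hL hLne he
  obtain ⟨cA, hcA, hA1, hA2⟩ := Sma A hAne he3
  obtain ⟨cB, hcB, hB1, hB2⟩ := Sma B hBne he3
  have hx : ∀ θ φ ψ, dt (uu θ) (cA φ - cB ψ) ≤ dt (uu θ) (qq l θ) := by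
    intro θ φ ψ
    obtain ⟨a, ha, h1⟩ := hA2 θ
    obtain ⟨b, hb, h2⟩ := hB2 (θ + π)
    have h3 := hcA.supp θ φ
    have h4 := hcB.supp (θ + π) ψ
    obtain ⟨y, hy, z, hz, hyz⟩ := hAB a ha b hb
    have h5 := hl1 θ y hy
    have h6 := hl1 (θ + π) z hz
    have h7 : dt (uu θ) (a - b) = dt (uu θ) (y - z) := by rw [hyz]
    rw [dt_sub, dt_sub] at h7
    unfold qq
    rw [dt_sub, dt_sub]
    rw [uu_pi, neg_dt, neg_dt] at h2 h4 h6
    linarith
  by_cases bA : Bad3 l cA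
  · right
    exact Ae2_cov hL hLc h hρ hs0 hball hee hRb hsR hl hl2 hcB B
      (fun θ w hw => by linarith [hB1 θ w hw]) (fun bB => TTs hl hcA hcB hx bA bB)
  · left
    exact Ae2_cov hL hLc h hρ hs0 hball hee hRb hsR hl hl2 hcA A
      (fun θ w hw => by linarith [hA1 θ w hw]) bA

theorem Af2 (L : Set V) (hL : IsCompact L) (hLc : Convex ℝ L) {p q r a b c : V}
    (h : AT L p q r a b c)
    (A B : Finset V) (hAB : ∀ a ∈ A, ∀ b ∈ B, ∃ y ∈ L, ∃ z ∈ L, a - b = y - z) :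
    (∃ p : Fin 3 → V, ∀ a ∈ A, ∃ k, a - p k ∈ L) ∨
    (∃ p : Fin 3 → V, ∀ b ∈ B, ∃ k, b - p k ∈ L) := by
  have hLne : L.Nonempty := ⟨p, h.hp⟩
  have mono : ∀ (C : Finset V) (ε ε' : ℝ), ε ≤ ε' →
      (∃ p : Fin 3 → V, ∀ a ∈ C, ∃ k, ∀ θ, ∃ y ∈ L, dt (uu θ) (a - p k) ≤ dt (uu θ) y + ε) →
      (∃ p : Fin 3 → V, ∀ a ∈ C, ∃ k, ∀ θ, ∃ y ∈ L, dt (uu θ) (a - p k) ≤ dt (uu θ) y + ε') := by
    intro C ε ε' he hp
    obtain ⟨p, hp⟩ := hp
    refine ⟨p, fun a ha => ?_⟩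
    obtain ⟨k, hk⟩ := hp a ha
    refine ⟨k, fun θ => ?_⟩
    obtain ⟨y, hy, h1⟩ := hk θ
    exact ⟨y, hy, by linarith⟩
  by_cases h1 : ∀ ε : ℝ, 0 < ε →
      ∃ p : Fin 3 → V, ∀ a ∈ A, ∃ k, ∀ θ, ∃ y ∈ L, dt (uu θ) (a - p k) ≤ dt (uu θ) y + ε
  · exact Or.inl (lim L hL hLc hLne A h1)
  · refine Or.inr (lim L hL hLc hLne B ?_)
    obtain ⟨ε₁, h2⟩ := not_forall.1 h1
    obtain ⟨hε₁, h3⟩ := Classical.not_imp.1 h2
    intro ε hε
    rcases Ae2 L hL hLc h A B hAB (lt_min hε hε₁) with h4 | h4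
    · exact absurd (mono A _ ε₁ (min_le_right _ _) h4) h3
    · exact mono B _ ε (min_le_left _ _) h4

/-- CLASS (B): `L` compact convex with three pairwise antipodal points, `A - B ⊆ L - L`. -/
theorem Ag2 (L : Set V) (hL : IsCompact L) (hLc : Convex ℝ L) {p q r a b c : V}
    (h : AT L p q r a b c) (A B : Set V)
    (hAB : ∀ a ∈ A, ∀ b ∈ B, ∃ y ∈ L, ∃ z ∈ L, a - b = y - z) :
    (∃ p : Fin 3 → V, ∀ a ∈ A, ∃ k, a - p k ∈ L) ∨
    (∃ p : Fin 3 → V, ∀ b ∈ B, ∃ k, b - p k ∈ L) := by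
  by_contra hcon
  rw [not_or] at hcon
  have key : ∀ D : Set V, ¬ (∃ p : Fin 3 → V, ∀ a ∈ D, ∃ k, a - p k ∈ L) →
      ∃ F : Finset V, (F : Set V) ⊆ D ∧ ¬ ∃ p : Fin 3 → V, ∀ a ∈ F, ∃ k, a - p k ∈ L := by
    intro D hD
    by_contra hc
    push Not at hc
    exact hD (cpt L hL D (fun F hF => hc F hF))
  obtain ⟨F, hF1, hF3⟩ := key A hcon.1
  obtain ⟨G, hG1, hG3⟩ := key B hcon.2
  rcases Af2 L hL hLc h F G (fun a ha b hb => hAB a (hF1 (Finset.mem_coe.mpr ha)) b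
    (hG1 (Finset.mem_coe.mpr hb))) with h' | h'
  · exact hF3 h'
  · exact hG3 h'

end H27EB
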