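import Mathlib

/-!
# The chain of cuts (no paths)

`X i j` is the convex set of centres which are good for the arc `[i, j]`.  If no cut into three
good arcs has a tie for the minimum of `g` among its centres, the index of the minimum is
constant along a chain of cuts from a cut to its shift, which is absurd.
-/

set_option autoImplicit false

namespace H27EB

/-- three continuous functions without a tie at the minimum: the index of the minimum is constant -/
lemma min_const (u v w : ℝ → ℝ) (hu : Continuous u) (hv : Continuous v) (hw : Continuous w)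
    (h : ∀ t ∈ Set.Icc (0 : ℝ) 1, ¬ (u t = v t ∧ u t ≤ w t) ∧ ¬ (u t = w t ∧ u t ≤ v t))
    (h0 : u 0 < v 0 ∧ u 0 < w 0) : u 1 < v 1 ∧ u 1 < w 1 := by
  by_contra hc
  have hf : Continuous (fun t => min (v t) (w t) - u t) := (hv.min hw).sub hu
  have h1 : min (v 1) (w 1) - u 1 ≤ 0 := by
    by_contra h2
    push Not at h2
    apply hc
    have h3 : u 1 < min (v 1) (w 1) := by linarith
    exact lt_min_iff.1 h3
  have h2 : 0 ≤ min (v 0) (w 0) - u 0 := by
    have := lt_min h0.1 h0.2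
    linarith
  obtain ⟨t, ht, ht0⟩ := intermediate_value_Icc' (zero_le_one' ℝ) hf.continuousOn
    (⟨h1, h2⟩ : (0 : ℝ) ∈ Set.Icc _ _)
  have ht0' : min (v t) (w t) - u t = 0 := ht0
  have hh := h t ht
  rcases le_total (v t) (w t) with hvw | hvw
  · rw [min_eq_left hvw] at ht0'
    exact hh.1 ⟨by linarith, by linarith⟩
  · rw [min_eq_right hvw] at ht0'
    exact hh.2 ⟨by linarith, by linarith⟩

/-- no tie for the minimum of three numbers -/
def NT (a b c : ℝ) : Prop := ¬ (a = b ∧ a ≤ c) ∧ ¬ (b = c ∧ b ≤ a) ∧ ¬ (c = a ∧ c ≤ b)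

lemma NT.cyc {a b c : ℝ} (h : NT a b c) : NT b c a := ⟨h.2.1, h.2.2, h.1⟩

/-- the first number is the strict minimum -/
def M1 (a b c : ℝ) : Prop := a < b ∧ a < c

lemma NT.cases {a b c : ℝ} (h : NT a b c) : M1 a b c ∨ M1 b c a ∨ M1 c a b := by
  unfold NT M1 at *
  obtain ⟨h1, h2, h3⟩ := h
  rcases lt_trichotomy a b with h4 | h4 | h4
  · rcases lt_trichotomy a c with h5 | h5 | h5
    · exact Or.inl ⟨h4, h5⟩
    · exact absurd ⟨h5.symm, by linarith⟩ h3
    · exact Or.inr (Or.inr ⟨h5, by linarith⟩)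
  · rcases lt_or_ge c a with h5 | h5
    · exact Or.inr (Or.inr ⟨h5, by linarith⟩)
    · exact absurd ⟨h4, h5⟩ h1
  · rcases lt_trichotomy b c with h5 | h5 | h5
    · exact Or.inr (Or.inl ⟨h5, h4⟩)
    · exact absurd ⟨h5, h4.le⟩ h2
    · exact Or.inr (Or.inr ⟨by linarith, h5⟩)

lemma M1.ne {a b c : ℝ} (h : M1 a b c) : ¬ M1 b c a ∧ ¬ M1 c a b := by
  unfold M1 at *
  constructor
  · rintro ⟨h1, h2⟩; linarith [h.1]
  · rintro ⟨h1, h2⟩; linarith [h.2]

section

variable {V : Type*} [AddCommGroup V] [Module ℝ V]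

/-- constancy of the label on a product of convex sets -/
lemma label_const (g : V →ₗ[ℝ] ℝ) (A B C : Set V) (hA : Convex ℝ A) (hB : Convex ℝ B)
    (hC : Convex ℝ C) (h : ∀ x ∈ A, ∀ y ∈ B, ∀ z ∈ C, NT (g x) (g y) (g z))
    {x x' y y' z z' : V} (hx : x ∈ A) (hx' : x' ∈ A) (hy : y ∈ B) (hy' : y' ∈ B) (hz : z ∈ C)
    (hz' : z' ∈ C) (h0 : M1 (g x) (g y) (g z)) : M1 (g x') (g y') (g z') := by
  have key : ∀ a b : V, Continuous (fun t : ℝ => g ((1 - t) • a + t • b)) := by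
    intro a b
    have : (fun t : ℝ => g ((1 - t) • a + t • b)) = fun t : ℝ => (1 - t) * g a + t * g b := by
      funext t
      simp
    rw [this]
    fun_prop
  have := min_const (fun t => g ((1 - t) • x + t • x')) (fun t => g ((1 - t) • y + t • y'))
    (fun t => g ((1 - t) • z + t • z')) (key _ _) (key _ _) (key _ _) ?_ ?_
  · simpa [M1] using this
  · intro t ht
    have e1 : (1 - t) • x + t • x' ∈ A := hA hx hx' (by linarith [ht.2]) ht.1 (by ring)
    have e2 : (1 - t) • y + t • y' ∈ B := hB hy hy' (by linarith [ht.2]) ht.1 (by ring)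
    have e3 : (1 - t) • z + t • z' ∈ C := hC hz hz' (by linarith [ht.2]) ht.1 (by ring)
    have hh := h _ e1 _ e2 _ e3
    refine ⟨hh.1, ?_⟩
    rintro ⟨h1, h2⟩
    exact hh.2.2 ⟨h1.symm, by rw [← h1]; exact h2⟩
  · simpa [M1] using h0

variable (g : V →ₗ[ℝ] ℝ) (X : ℤ → ℤ → Set V) (N : ℤ)

/-- a cut into three good arcs -/
structure Cut (c : ℤ × ℤ × ℤ) : Prop where
  h12 : c.1 ≤ c.2.1
  h23 : c.2.1 ≤ c.2.2
  h31 : c.2.2 ≤ c.1 + N
  n1 : (X c.1 c.2.1).Nonempty
  n2 : (X c.2.1 c.2.2).Nonempty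
  n3 : (X c.2.2 (c.1 + N)).Nonempty

/-- the label of a cut: all centres have the strict minimum of `g` at the same place -/
def Lab1 (c : ℤ × ℤ × ℤ) : Prop :=
  ∀ x ∈ X c.1 c.2.1, ∀ y ∈ X c.2.1 c.2.2, ∀ z ∈ X c.2.2 (c.1 + N), M1 (g x) (g y) (g z)

def Lab2 (c : ℤ × ℤ × ℤ) : Prop :=
  ∀ x ∈ X c.1 c.2.1, ∀ y ∈ X c.2.1 c.2.2, ∀ z ∈ X c.2.2 (c.1 + N), M1 (g y) (g z) (g x)

def Lab3 (c : ℤ × ℤ × ℤ) : Prop :=
  ∀ x ∈ X c.1 c.2.1, ∀ y ∈ X c.2.1 c.2.2, ∀ z ∈ X c.2.2 (c.1 + N), M1 (g z) (g x) (g y)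

variable {g X N}

/-- the moves of the chain keep the label -/
lemma move (hconv : ∀ i j, Convex ℝ (X i j))
    (hanti : ∀ i i' j j', i ≤ i' → j' ≤ j → X i j ⊆ X i' j')
    (hno : ∀ c1 c2 c3, c1 ≤ c2 → c2 ≤ c3 → c3 ≤ c1 + N → ∀ x ∈ X c1 c2, ∀ y ∈ X c2 c3,
      ∀ z ∈ X c3 (c1 + N), NT (g x) (g y) (g z))
    {c c' : ℤ × ℤ × ℤ} (hc' : Cut X N c') (h1 : c.1 ≤ c'.1)
    (h2 : c.2.1 ≤ c'.2.1) (h3 : c.2.2 ≤ c'.2.2) (n1 : (X c.1 c'.2.1).Nonempty)
    (n2 : (X c.2.1 c'.2.2).Nonempty) (n3 : (X c.2.2 (c'.1 + N)).Nonempty) :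
    (Lab1 g X N c → Lab1 g X N c') ∧ (Lab2 g X N c → Lab2 g X N c') ∧
      (Lab3 g X N c → Lab3 g X N c') := by
  obtain ⟨x, hx⟩ := n1
  obtain ⟨y, hy⟩ := n2
  obtain ⟨z, hz⟩ := n3
  have hxc := hanti c.1 c.1 c'.2.1 c.2.1 le_rfl h2 hx
  have hyc := hanti c.2.1 c.2.1 c'.2.2 c.2.2 le_rfl h3 hy
  have hzc := hanti c.2.2 c.2.2 (c'.1 + N) (c.1 + N) le_rfl (by linarith) hz
  have hx' := hanti c.1 c'.1 c'.2.1 c'.2.1 h1 le_rfl hx
  have hy' := hanti c.2.1 c'.2.1 c'.2.2 c'.2.2 h2 le_rfl hy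
  have hz' := hanti c.2.2 c'.2.2 (c'.1 + N) (c'.1 + N) h3 le_rfl hz
  have H := hno c'.1 c'.2.1 c'.2.2 hc'.h12 hc'.h23 hc'.h31
  refine ⟨?_, ?_, ?_⟩
  · intro h x1 hx1 y1 hy1 z1 hz1
    exact label_const g _ _ _ (hconv _ _) (hconv _ _) (hconv _ _) H hx' hx1 hy' hy1 hz' hz1
      (h x hxc y hyc z hzc)
  · intro h x1 hx1 y1 hy1 z1 hz1
    exact label_const g _ _ _ (hconv _ _) (hconv _ _) (hconv _ _)
      (fun a ha b hb c hc => (H c hc a ha b hb).cyc) hy' hy1 hz' hz1 hx' hx1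
      (h x hxc y hyc z hzc)
  · intro h x1 hx1 y1 hy1 z1 hz1
    exact label_const g _ _ _ (hconv _ _) (hconv _ _) (hconv _ _)
      (fun a ha b hb c hc => (H b hb c hc a ha).cyc.cyc) hz' hz1 hx' hx1 hy' hy1
      (h x hxc y hyc z hzc)

/-- every cut has a label -/
lemma exists_lab (hconv : ∀ i j, Convex ℝ (X i j))
    (hno : ∀ c1 c2 c3, c1 ≤ c2 → c2 ≤ c3 → c3 ≤ c1 + N → ∀ x ∈ X c1 c2, ∀ y ∈ X c2 c3,
      ∀ z ∈ X c3 (c1 + N), NT (g x) (g y) (g z)) {c : ℤ × ℤ × ℤ} (hc : Cut X N c) :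
    Lab1 g X N c ∨ Lab2 g X N c ∨ Lab3 g X N c := by
  obtain ⟨x, hx⟩ := hc.n1
  obtain ⟨y, hy⟩ := hc.n2
  obtain ⟨z, hz⟩ := hc.n3
  have H := hno c.1 c.2.1 c.2.2 hc.h12 hc.h23 hc.h31
  rcases (H x hx y hy z hz).cases with h | h | h
  · left
    intro x1 hx1 y1 hy1 z1 hz1
    exact label_const g _ _ _ (hconv _ _) (hconv _ _) (hconv _ _) H hx hx1 hy hy1 hz hz1 h
  · right; left
    intro x1 hx1 y1 hy1 z1 hz1
    exact label_const g _ _ _ (hconv _ _) (hconv _ _) (hconv _ _)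
      (fun a ha b hb c hc => (H c hc a ha b hb).cyc) hy hy1 hz hz1 hx hx1 h
  · right; right
    intro x1 hx1 y1 hy1 z1 hz1
    exact label_const g _ _ _ (hconv _ _) (hconv _ _) (hconv _ _)
      (fun a ha b hb c hc => (H b hb c hc a ha).cyc.cyc) hz hz1 hx hx1 hy hy1 h

/-- THE CHAIN. -/
theorem chain (gl : ℤ → ℤ → Prop) (hN : 0 < N)
    (hconv : ∀ i j, Convex ℝ (X i j))
    (hanti : ∀ i i' j j', i ≤ i' → j' ≤ j → X i j ⊆ X i' j')
    (hper : ∀ i j, X (i + N) (j + N) = X i j)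
    (gl_refl : ∀ i, gl i i)
    (gl_anti : ∀ i i' j j', i ≤ i' → j' ≤ j → gl i j → gl i' j')
    (hext : ∀ i j, i ≤ j → gl i j → (X i (j + 1)).Nonempty)
    (hfull : ∀ i, ¬ (X i (i + N)).Nonempty)
    (hbad : ∀ i j1 j2 j3, i ≤ j1 → j1 ≤ j2 → j2 ≤ j3 → j3 ≤ i + N →
      gl i j1 ∨ gl j1 j2 ∨ gl j2 j3)
    (hno : ∀ c1 c2 c3, c1 ≤ c2 → c2 ≤ c3 → c3 ≤ c1 + N → ∀ x ∈ X c1 c2, ∀ y ∈ X c2 c3,
      ∀ z ∈ X c3 (c1 + N), NT (g x) (g y) (g z)) : False := by
  classical
  have gl_X : ∀ i j, i ≤ j → gl i j → (X i j).Nonempty := by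
    intro i j hij h
    obtain ⟨x, hx⟩ := hext i j hij h
    exact ⟨x, hanti i i (j + 1) j le_rfl (by omega) hx⟩
  have nfull : ∀ i, ¬ gl i (i + N) := fun i h => hfull i (gl_X i (i + N) (by omega) h)
  -- the greedy map
  have hG : ∀ i : ℤ, ∃ j, i < j ∧ j < i + N ∧ ¬ gl i j ∧ ∀ k, i ≤ k → k < j → gl i k := by
    intro i
    have hex : ∃ n : ℕ, ¬ gl i (i + n) := ⟨N.toNat, by
      rw [Int.toNat_of_nonneg hN.le]; exact nfull i⟩
    have hs := Nat.find_spec hex
    have hm := fun (m : ℕ) => Nat.find_min hex (m := m)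
    set n := Nat.find hex with hn
    have hn0 : 0 < n := by
      rcases Nat.eq_zero_or_pos n with h | h
      · exfalso
        apply hs
        rw [h]
        simpa using gl_refl i
      · exact h
    have hnN : (n : ℤ) ≤ N := by
      by_contra hc
      push Not at hc
      have h1 : N.toNat < n := by omega
      have h2 := hm _ h1
      rw [Int.toNat_of_nonneg hN.le] at h2
      exact h2 (nfull i)
    have hlt : ∀ k, i ≤ k → k < i + n → gl i k := by
      intro k hk1 hk2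
      have h1 := hm (k - i).toNat (by omega)
      rw [Int.toNat_of_nonneg (by omega)] at h1
      have h2 : i + (k - i) = k := by ring
      rw [h2] at h1
      exact not_not.1 h1
    refine ⟨i + n, by omega, ?_, hs, hlt⟩
    rcases lt_or_eq_of_le hnN with h | h
    · omega
    · exfalso
      have h1 := hlt (i + n - 1) (by omega) (by omega)
      obtain ⟨x, hx⟩ := hext i (i + n - 1) (by omega) h1
      apply hfull i
      refine ⟨x, ?_⟩
      rw [← h]
      simpa using hx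
  choose G hG1 hG2 hG3 hG4 using hG
  have Gmono : ∀ i i', i ≤ i' → G i ≤ G i' := by
    intro i i' h
    by_contra hc
    push Not at hc
    have h1 := hG4 i (G i') (by have := hG1 i'; omega) hc
    exact hG3 i' (gl_anti i i' _ _ h le_rfl h1)
  have G3 : ∀ i, i + N < G (G (G i)) := by
    intro i
    by_contra hc
    push Not at hc
    have a1 := hG1 i
    have a2 := hG1 (G i)
    have a3 := hG1 (G (G i))
    rcases hbad i (G i) (G (G i)) (G (G (G i))) a1.le a2.le a3.le hc with h | h | h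
    · exact hG3 _ h
    · exact hG3 _ h
    · exact hG3 _ h
  have GX : ∀ i, (X i (G i)).Nonempty := by
    intro i
    have h1 := hG4 i (G i - 1) (by have := hG1 i; omega) (by omega)
    have h2 := hext i (G i - 1) (by have := hG1 i; omega) h1
    simpa using h2
  set H : ℤ → ℤ := fun i => min (G (G i)) (i + N) with hH
  have H1 : ∀ i, G i ≤ H i := fun i => le_min (hG1 (G i)).le (hG2 i).le
  have H2 : ∀ i, H i ≤ i + N := fun i => min_le_right _ _
  have H3 : ∀ i, H i ≤ G (G i) := fun i => min_le_left _ _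
  have Hmono : ∀ i, H i ≤ H (i + 1) := by
    intro i
    refine min_le_min (Gmono _ _ (Gmono _ _ (by omega))) (by omega)
  have HX : ∀ i, (X (H i) (i + 1 + N)).Nonempty := by
    intro i
    have h1 : gl (H i) (i + N) := by
      rcases le_total (G (G i)) (i + N) with h | h
      · have e : H i = G (G i) := min_eq_left h
        rw [e]
        exact hG4 _ _ h (G3 i)
      · have e : H i = i + N := min_eq_right h
        rw [e]
        exact gl_refl _
    have h2 := hext _ _ (H2 i) h1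
    rw [show i + 1 + N = i + N + 1 by ring]
    exact h2
  have GHX : ∀ i, (X (G i) (H i)).Nonempty := by
    intro i
    obtain ⟨x, hx⟩ := GX (G i)
    exact ⟨x, hanti _ _ _ _ le_rfl (H3 i) hx⟩
  have ne_sub : ∀ {i i' j j' : ℤ}, i ≤ i' → j' ≤ j → (X i j).Nonempty → (X i' j').Nonempty := by
    intro i i' j j' h1 h2 h
    obtain ⟨x, hx⟩ := h
    exact ⟨x, hanti _ _ _ _ h1 h2 hx⟩
  have cutI : ∀ i, Cut X N (i, G i, H i) := by
    intro i
    exact ⟨(hG1 i).le, H1 i, H2 i, GX i, GHX i, ne_sub le_rfl (by simp only; omega) (HX i)⟩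
  -- the steps
  have GH' : ∀ i, G (i + 1) ≤ H i := by
    intro i
    refine le_min (Gmono _ _ ?_) ?_
    · have := hG1 i; omega
    · have := hG2 (i + 1); omega
  have step : ∀ i, (Lab1 g X N (i, G i, H i) → Lab1 g X N (i + 1, G (i + 1), H (i + 1))) ∧
      (Lab2 g X N (i, G i, H i) → Lab2 g X N (i + 1, G (i + 1), H (i + 1))) ∧
      (Lab3 g X N (i, G i, H i) → Lab3 g X N (i + 1, G (i + 1), H (i + 1))) := by
    intro i
    have hg1 := hG1 i
    have hgm := Gmono i (i + 1) (by omega)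
    have hH1 := H1 i
    have hH2 := H2 i
    have hHm := Hmono i
    have c1 : Cut X N (i + 1, G i, H i) := by
      refine ⟨?_, hH1, ?_, ne_sub ?_ le_rfl (GX i), GHX i, HX i⟩ <;> simp only <;> omega
    have c2 : Cut X N (i + 1, G (i + 1), H i) := by
      refine ⟨(hG1 (i + 1)).le, GH' i, ?_, GX (i + 1), ne_sub hgm le_rfl (GHX i), HX i⟩
      simp only
      omega
    have c3 := cutI (i + 1)
    have m1 := move (g := g) hconv hanti hno (c := (i, G i, H i)) c1 (by simp) le_rfl le_rfl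
      (GX i) (GHX i) (HX i)
    have m2 := move (g := g) hconv hanti hno (c := (i + 1, G i, H i)) c2 le_rfl hgm le_rfl
      (GX (i + 1)) (GHX i) (HX i)
    have m3 := move (g := g) hconv hanti hno (c := (i + 1, G (i + 1), H i)) c3 le_rfl le_rfl hHm
      (GX (i + 1)) (GHX (i + 1)) (HX i)
    exact ⟨fun h => m3.1 (m2.1 (m1.1 h)), fun h => m3.2.1 (m2.2.1 (m1.2.1 h)),
      fun h => m3.2.2 (m2.2.2 (m1.2.2 h))⟩
  have steps : ∀ n : ℕ, (Lab1 g X N (0, G 0, H 0) → Lab1 g X N ((n : ℤ), G n, H n)) ∧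
      (Lab2 g X N (0, G 0, H 0) → Lab2 g X N ((n : ℤ), G n, H n)) ∧
      (Lab3 g X N (0, G 0, H 0) → Lab3 g X N ((n : ℤ), G n, H n)) := by
    intro n
    induction n with
    | zero => simp
    | succ n ih =>
      have s := step n
      push_cast
      exact ⟨fun h => s.1 (ih.1 h), fun h => s.2.1 (ih.2.1 h), fun h => s.2.2 (ih.2.2 h)⟩
  -- the end of the chain
  have hg0 := hG1 0
  have st := steps (G 0).toNat
  rw [Int.toNat_of_nonneg (by omega)] at st
  -- the shifted cut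
  have hN0 : H 0 ≤ N := by simpa using H2 0
  have XN : (X N (G 0 + N)).Nonempty := by
    have := hper 0 (G 0)
    rw [zero_add] at this
    rw [this]
    exact GX 0
  have hHG : N ≤ H (G 0) := by
    refine le_min ?_ (by omega)
    have := G3 0
    omega
  have mv := move (g := g) hconv hanti hno (c := (G 0, H 0, N)) (cutI (G 0)) le_rfl (H3 0) hHG
    (GX (G 0)) (by
      show (X (H 0) (H (G 0))).Nonempty
      rcases le_total (G (G 0)) (0 + N) with h | h
      · have e : H 0 = G (G 0) := min_eq_left h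
        rw [e]
        exact ne_sub le_rfl (H3 (G 0)) (GX (G (G 0)))
      · have e : H 0 = 0 + N := min_eq_right h
        rw [e, zero_add]
        exact ne_sub le_rfl (H2 (G 0)) XN)
    (by
      show (X N (G 0 + N)).Nonempty
      exact XN)
  -- back from the last cut to the shifted cut
  have c0 := cutI 0
  obtain ⟨a0, ha0⟩ := c0.n1
  obtain ⟨b0, hb0⟩ := c0.n2
  obtain ⟨d0, hd0⟩ := c0.n3
  simp only at ha0 hb0 hd0
  rw [zero_add] at hd0
  have shiftcut : Cut X N (G 0, H 0, N) := by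
    refine ⟨H1 0, hN0, ?_, ⟨b0, hb0⟩, ⟨d0, hd0⟩, XN⟩
    simp only
    omega
  have ha0' : a0 ∈ X N (G 0 + N) := by
    have := hper 0 (G 0)
    rw [zero_add] at this
    rw [this]
    exact ha0
  obtain ⟨a1, ha1⟩ := (cutI (G 0)).n1
  obtain ⟨b1, hb1⟩ := (cutI (G 0)).n2
  obtain ⟨d1, hd1⟩ := (cutI (G 0)).n3
  -- the labels of the shifted cut
  rcases exists_lab hconv hno shiftcut with h | h | h
  · -- first is the minimum for the shifted cut: `b0 < d0, a0`
    have h1 := h b0 hb0 d0 hd0 a0 ha0'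
    have h2 := mv.1 h a1 ha1 b1 hb1 d1 hd1
    -- so the first cut has label 2
    rcases exists_lab hconv hno c0 with k | k | k
    · have k1 := st.1 k a1 ha1 b1 hb1 d1 hd1
      have k2 := k a0 ha0 b0 hb0 d0 (by simpa using hd0)
      exact (M1.ne k2).1 h1
    · have k1 := st.2.1 k a1 ha1 b1 hb1 d1 hd1
      exact (M1.ne h2).1 k1
    · have k1 := st.2.2 k a1 ha1 b1 hb1 d1 hd1
      exact (M1.ne h2).2 k1
  · have h1 := h b0 hb0 d0 hd0 a0 ha0'
    have h2 := mv.2.1 h a1 ha1 b1 hb1 d1 hd1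
    rcases exists_lab hconv hno c0 with k | k | k
    · have k1 := st.1 k a1 ha1 b1 hb1 d1 hd1
      exact (M1.ne k1).1 h2
    · have k2 := k a0 ha0 b0 hb0 d0 (by simpa using hd0)
      exact (M1.ne k2).1 h1
    · have k1 := st.2.2 k a1 ha1 b1 hb1 d1 hd1
      exact (M1.ne h2).1 k1
  · have h1 := h b0 hb0 d0 hd0 a0 ha0'
    have h2 := mv.2.2 h a1 ha1 b1 hb1 d1 hd1
    rcases exists_lab hconv hno c0 with k | k | k
    · have k1 := st.1 k a1 ha1 b1 hb1 d1 hd1
      exact (M1.ne k1).2 h2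
    · have k1 := st.2.1 k a1 ha1 b1 hb1 d1 hd1
      exact (M1.ne k1).1 h2
    · have k2 := k a0 ha0 b0 hb0 d0 (by simpa using hd0)
      exact (M1.ne k2).1 h1

end

end H27EB
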