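import Pool.Agent.H27.EB.Chain
import Pool.Agent.H73.ZP.Sb
import Pool.Agent.H73.ZP.Bdb

/-!
# Three translates cover the body of `c`

`TieP L g` is the tie property; if no three consecutive arcs of the curve `c` are bad for `l` and
`body l` plus a ball is contained in `L`, the body of `c` is covered by three translates of `L`.
-/

set_option autoImplicit false

open Real

namespace H27EB

open ZP

/-- The tie property: pairwise intersecting translates `L + x₁`, `L + x₂`, `L + x₃` with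
`g x₁ = g x₂ ≤ g x₃` have a common point. -/
def TieP (L : Set V) (g : V →ₗ[ℝ] ℝ) : Prop :=
  ∀ x₁ x₂ x₃ : V, (∃ o, o - x₁ ∈ L ∧ o - x₂ ∈ L) → (∃ o, o - x₂ ∈ L ∧ o - x₃ ∈ L) →
    (∃ o, o - x₃ ∈ L ∧ o - x₁ ∈ L) → g x₁ = g x₂ → g x₁ ≤ g x₃ →
      ∃ o, o - x₁ ∈ L ∧ o - x₂ ∈ L ∧ o - x₃ ∈ L

/-- the arc `[s, t]` of the curve `c` fits into a translate of the body of `l` -/
def arcGood (l c : ℝ → V) (s t : ℝ) : Prop :=
  ∃ p : V, ∀ φ, s ≤ φ → φ ≤ t → c φ - p ∈ body l

/-- every point of the body lies on a segment from `o` to a point of the curve -/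
lemma fan {c : ℝ → V} (hc : Bd c) {y : V} (hy : y ∈ body c) (o : V) :
    ∃ φ, y ∈ segment ℝ o (c φ) := by
  by_cases hyo : y = o
  · exact ⟨0, by rw [hyo]; exact left_mem_segment ℝ _ _⟩
  obtain ⟨r, β, hr, -, -, hβ⟩ := Bda_polar_uu (y - o) (sub_ne_zero.2 hyo) 0
  set S : ℝ := (dt (uu β) (c β) - dt (uu β) y) / r with hS
  have hS0 : 0 ≤ S := by
    have := hy β
    rw [hS]
    apply div_nonneg _ hr.le
    linarith
  have hγ : Continuous (fun s : ℝ => y + s • (y - o)) := by fun_prop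
  obtain ⟨s, hs0, hs1, φ, hφ⟩ := hit hc hγ hS0 (by simpa using hy) ⟨β, by
    show dt (uu β) (c β) ≤ dt (uu β) (y + S • (y - o))
    rw [dt_add, dt_smul, hβ, dt_smul, dt_uu_uu, sub_self, Real.cos_zero, mul_one, hS,
      div_mul_cancel₀ _ hr.ne']
    linarith⟩
  refine ⟨φ, ?_⟩
  rw [← hφ]
  have h1 : (0 : ℝ) < 1 + s := by linarith
  refine ⟨s / (1 + s), 1 / (1 + s), by positivity, by positivity, ?_, ?_⟩
  · field_simp
    ring
  · show (s / (1 + s)) • o + (1 / (1 + s)) • (y + s • (y - o)) = y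
    ext
    · simp only [Prod.fst_add, Prod.smul_fst, Prod.fst_sub, smul_eq_mul]
      field_simp
      ring
    · simp only [Prod.snd_add, Prod.smul_snd, Prod.snd_sub, smul_eq_mul]
      field_simp
      ring

/-- every angle can be shifted by a multiple of `2 π` into a window -/
lemma window {c : ℝ → V} (hc : Bd c) (φ a : ℝ) : ∃ ψ, a ≤ ψ ∧ ψ < a + 2 * π ∧ c ψ = c φ := by
  obtain ⟨n, hn, _⟩ := existsUnique_add_zsmul_mem_Ico (by linarith [pi_pos] : (0 : ℝ) < 2 * π)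
    φ a
  have hper : Function.Periodic c (2 * π) := hc.per
  exact ⟨φ + n • (2 * π), hn.1, hn.2, (hper.zsmul n) φ⟩

theorem cover {l c : ℝ → V} (hc : Bd c) {L : Set V} (hLc : Convex ℝ L)
    (g : V →ₗ[ℝ] ℝ) (hT : TieP L g) {d : ℝ} (hd : 0 < d)
    (hsub : ∀ x ∈ body l, ∀ v : V, ‖v‖ ≤ d → x + v ∈ L)
    (hb : ∀ s₀ s₁ s₂ s₃ : ℝ, s₀ ≤ s₁ → s₁ ≤ s₂ → s₂ ≤ s₃ → s₃ ≤ s₀ + 2 * π →
      arcGood l c s₀ s₁ ∨ arcGood l c s₁ s₂ ∨ arcGood l c s₂ s₃)
    (hne : (body l).Nonempty) :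
    ∃ p : Fin 3 → V, ∀ y ∈ body c, ∃ k, y - p k ∈ L := by
  by_contra hno
  obtain ⟨δ, hδ, huc⟩ := Sb_uc hc hd
  obtain ⟨n, hn⟩ := exists_nat_gt (2 * π / δ)
  set N : ℕ := n + 1 with hN
  have hNr : (0 : ℝ) < N := by rw [hN]; positivity
  have hNδ : 2 * π / N ≤ δ := by
    rw [div_le_iff₀ hNr]
    rw [div_lt_iff₀ hδ] at hn
    rw [hN]
    push_cast
    nlinarith
  set th : ℤ → ℝ := fun i => 2 * π / N * i with hth
  have th_mono : ∀ i j : ℤ, i ≤ j → th i ≤ th j := by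
    intro i j hij
    have : (i : ℝ) ≤ j := by exact_mod_cast hij
    exact mul_le_mul_of_nonneg_left this (by positivity)
  have th_N : ∀ i : ℤ, th (i + N) = th i + 2 * π := by
    intro i
    simp only [hth]
    push_cast
    field_simp
  have th_1 : ∀ i : ℤ, th (i + 1) ≤ th i + δ := by
    intro i
    simp only [hth]
    push_cast
    linarith
  set X : ℤ → ℤ → Set V := fun i j => {x | ∀ φ, th i ≤ φ → φ ≤ th j → c φ - x ∈ L} with hX
  have hcov : ∀ (o : V) (p : Fin 3 → V) (a : ℝ), (∀ k, o - p k ∈ L) →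
      (∀ φ, a ≤ φ → φ ≤ a + 2 * π → ∃ k, c φ - p k ∈ L) → False := by
    intro o p a ho hp
    apply hno
    refine ⟨p, fun y hy => ?_⟩
    obtain ⟨φ, hφ⟩ := fan hc hy o
    obtain ⟨ψ, h1, h2, h3⟩ := window hc φ a
    obtain ⟨k, hk⟩ := hp ψ h1 h2.le
    refine ⟨k, ?_⟩
    rw [h3] at hk
    obtain ⟨α, β, hα, hβ, hαβ, hy2⟩ := hφ
    have h4 := hLc (ho k) hk hα hβ hαβ
    have h5 : y - p k = α • (o - p k) + β • (c φ - p k) := by
      have h6 : (α + β) • p k = p k := by rw [hαβ, one_smul]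
      rw [← hy2, smul_sub, smul_sub]
      conv_lhs => rw [← h6]
      rw [add_smul]
      abel
    rw [h5]
    exact h4
  refine chain (g := g) (X := X) (N := (N : ℤ)) (fun i j => arcGood l c (th i) (th j))
    (by exact_mod_cast Nat.succ_pos n) ?_ ?_ ?_ ?_ ?_ ?_ ?_ ?_ ?_
  · -- convexity
    intro i j x hx y hy a b ha hb' hab
    intro φ h1 h2
    have h3 := hLc (hx φ h1 h2) (hy φ h1 h2) ha hb' hab
    have h4 : c φ - (a • x + b • y) = a • (c φ - x) + b • (c φ - y) := by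
      have h6 : (a + b) • c φ = c φ := by rw [hab, one_smul]
      rw [smul_sub, smul_sub]
      conv_lhs => rw [← h6]
      rw [add_smul]
      abel
    rw [h4]
    exact h3
  · intro i i' j j' h1 h2 x hx φ h3 h4
    exact hx φ ((th_mono _ _ h1).trans h3) (h4.trans (th_mono _ _ h2))
  · intro i j
    ext x
    simp only [hX, Set.mem_setOf_eq, th_N]
    constructor
    · intro h φ h1 h2
      have := h (φ + 2 * π) (by linarith) (by linarith)
      rwa [hc.per] at this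
    · intro h φ h1 h2
      have := h (φ - 2 * π) (by linarith) (by linarith)
      rwa [← hc.per, sub_add_cancel] at this
  · intro i
    obtain ⟨z, hz⟩ := hne
    refine ⟨c (th i) - z, fun φ h1 h2 => ?_⟩
    have : φ = th i := le_antisymm h2 h1
    rw [this]
    simpa using hz
  · intro i i' j j' h1 h2 h
    obtain ⟨p, hp⟩ := h
    exact ⟨p, fun φ h3 h4 => hp φ ((th_mono _ _ h1).trans h3) (h4.trans (th_mono _ _ h2))⟩
  · intro i j hij h
    obtain ⟨p, hp⟩ := h
    refine ⟨p, fun φ h1 h2 => ?_⟩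
    rcases le_total φ (th j) with h3 | h3
    · have := hsub _ (hp φ h1 h3) 0 (by simpa using hd.le)
      simpa using this
    · have h4 := hp (th j) (th_mono _ _ hij) le_rfl
      have h5 : ‖c φ - c (th j)‖ ≤ d := huc _ _ (by
        rw [abs_le]
        constructor <;> linarith [th_1 j])
      have := hsub _ h4 _ h5
      have e : c (th j) - p + (c φ - c (th j)) = c φ - p := by abel
      rwa [e] at this
  · rintro i ⟨x, hx⟩
    refine hcov (c (th i)) (fun _ => x) (th i) (fun _ => ?_) (fun φ h1 h2 => ⟨0, ?_⟩)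
    · exact hx _ le_rfl (th_mono _ _ (by omega))
    · exact hx φ h1 (by rw [th_N]; exact h2)
  · intro i j1 j2 j3 h1 h2 h3 h4
    exact hb _ _ _ _ (th_mono _ _ h1) (th_mono _ _ h2) (th_mono _ _ h3)
      (by rw [← th_N]; exact th_mono _ _ h4)
  · intro c1 c2 c3 h12 h23 h31 x hx y hy z hz
    have p12 : ∃ o, o - x ∈ L ∧ o - y ∈ L :=
      ⟨c (th c2), hx _ (th_mono _ _ h12) le_rfl, hy _ le_rfl (th_mono _ _ h23)⟩
    have p23 : ∃ o, o - y ∈ L ∧ o - z ∈ L :=
      ⟨c (th c3), hy _ (th_mono _ _ h23) le_rfl, hz _ le_rfl (th_mono _ _ h31)⟩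
    have p31 : ∃ o, o - z ∈ L ∧ o - x ∈ L := by
      refine ⟨c (th c1), ?_, hx _ le_rfl (th_mono _ _ h12)⟩
      have := hz (th (c1 + N)) (th_mono _ _ h31) le_rfl
      rwa [th_N, hc.per] at this
    have fin : ∀ o, o - x ∈ L → o - y ∈ L → o - z ∈ L → False := by
      intro o ho1 ho2 ho3
      refine hcov o ![x, y, z] (th c1) ?_ ?_
      · intro k
        fin_cases k
        · exact ho1
        · exact ho2
        · exact ho3
      · intro φ h1 h2
        rcases le_total φ (th c2) with h | h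
        · exact ⟨0, hx φ h1 h⟩
        · rcases le_total φ (th c3) with h' | h'
          · exact ⟨1, hy φ h h'⟩
          · exact ⟨2, hz φ h' (by rw [th_N]; exact h2)⟩
    have sw : ∀ {u v : V}, (∃ o, o - u ∈ L ∧ o - v ∈ L) → ∃ o, o - v ∈ L ∧ o - u ∈ L := by
      rintro u v ⟨o, h1, h2⟩
      exact ⟨o, h2, h1⟩
    refine ⟨?_, ?_, ?_⟩
    · rintro ⟨e, h⟩
      obtain ⟨o, a, b, c'⟩ := hT x y z p12 p23 p31 e h
      exact fin o a b c'
    · rintro ⟨e, h⟩
      obtain ⟨o, a, b, c'⟩ := hT y z x p23 p31 p12 e h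
      exact fin o c' a b
    · rintro ⟨e, h⟩
      obtain ⟨o, a, b, c'⟩ := hT z x y p31 p12 p23 e h
      exact fin o b c' a

end H27EB
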