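import Pool.Agent.H27.EB.Cover
import Pool.Agent.H73.ZP.Ab

/-!
# Three consecutive bad arcs of a curve give `Bad3`
-/

set_option autoImplicit false

open Real

namespace H27EB

open ZP

lemma body_closed (l : ℝ → V) : IsClosed (body l) := by
  have : body l = ⋂ θ : ℝ, {x | dt (uu θ) x ≤ dt (uu θ) (l θ)} := by
    ext x; simp [body]
  rw [this]
  refine isClosed_iInter fun θ => isClosed_le ?_ continuous_const
  unfold dt
  fun_prop

lemma body_bounded (l : ℝ → V) : ∃ R : ℝ, ∀ x ∈ body l, ‖x‖ ≤ R := by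
  refine ⟨|dt (uu 0) (l 0)| + |dt (uu (π / 2)) (l (π / 2))| + |dt (uu π) (l π)| +
    |dt (uu (π / 2 + π)) (l (π / 2 + π))|, fun x hx => ?_⟩
  have h1 := hx 0
  have h2 := hx (π / 2)
  have h3 := hx π
  have h4 := hx (π / 2 + π)
  have e1 : dt (uu 0) x = x.1 := by simp [dt, uu]
  have e2 : dt (uu (π / 2)) x = x.2 := by simp [dt, uu]
  have e3 : dt (uu π) x = -x.1 := by simp [dt, uu]
  have e4 : dt (uu (π / 2 + π)) x = -x.2 := by
    rw [uu_pi, neg_dt, e2]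
  rw [e1] at h1
  rw [e2] at h2
  rw [e3] at h3
  rw [e4] at h4
  have a1 := le_abs_self (dt (uu 0) (l 0))
  have a2 := le_abs_self (dt (uu (π / 2)) (l (π / 2)))
  have a3 := le_abs_self (dt (uu π) (l π))
  have a4 := le_abs_self (dt (uu (π / 2 + π)) (l (π / 2 + π)))
  have b1 := abs_nonneg (dt (uu 0) (l 0))
  have b2 := abs_nonneg (dt (uu (π / 2)) (l (π / 2)))
  have b3 := abs_nonneg (dt (uu π) (l π))
  have b4 := abs_nonneg (dt (uu (π / 2 + π)) (l (π / 2 + π)))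
  rw [Prod.norm_def, max_le_iff, Real.norm_eq_abs, Real.norm_eq_abs, abs_le, abs_le]
  refine ⟨⟨by linarith, by linarith⟩, by linarith, by linarith⟩

/-- a bad arc contains a finite bad set -/
lemma bad_finite {l c : ℝ → V} {s t : ℝ} (h : ¬ arcGood l c s t) :
    ∃ T : Finset ℝ, (∀ φ ∈ T, s ≤ φ ∧ φ ≤ t) ∧ ¬ ∃ p : V, ∀ φ ∈ T, c φ - p ∈ body l := by
  classical
  have hst : s ≤ t := by
    by_contra hc
    push Not at hc
    exact h ⟨0, fun φ h1 h2 => absurd (h1.trans h2) (not_le.2 hc)⟩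
  obtain ⟨R, hR⟩ := body_bounded l
  set I := {φ : ℝ // s ≤ φ ∧ φ ≤ t} with hI
  set F : I → Set V := fun φ => {p | c φ.1 - p ∈ body l} with hF
  have hclosed : ∀ φ : I, IsClosed (F φ) := fun φ =>
    (body_closed l).preimage (continuous_const.sub continuous_id)
  have hK : IsCompact (Metric.closedBall (c s) R) := isCompact_closedBall _ _
  have hempty : Metric.closedBall (c s) R ∩ ⋂ φ, F φ = ∅ := by
    rw [Set.eq_empty_iff_forall_notMem]
    rintro p ⟨-, hp⟩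
    rw [Set.mem_iInter] at hp
    exact h ⟨p, fun φ h1 h2 => hp ⟨φ, h1, h2⟩⟩
  obtain ⟨u, hu⟩ := hK.elim_finite_subfamily_closed F hclosed hempty
  refine ⟨insert s (u.image Subtype.val), ?_, ?_⟩
  · intro φ hφ
    rw [Finset.mem_insert, Finset.mem_image] at hφ
    rcases hφ with rfl | ⟨ψ, -, rfl⟩
    · exact ⟨le_rfl, hst⟩
    · exact ψ.2
  · rintro ⟨p, hp⟩
    have h1 := hp s (Finset.mem_insert_self _ _)
    have h2 : p ∈ Metric.closedBall (c s) R := by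
      rw [Metric.mem_closedBall, dist_comm, dist_eq_norm]
      exact hR _ h1
    have h3 : p ∈ Metric.closedBall (c s) R ∩ ⋂ φ ∈ u, F φ := by
      refine ⟨h2, ?_⟩
      simp only [Set.mem_iInter]
      intro φ hφ
      exact hp φ.1 (Finset.mem_insert_of_mem (Finset.mem_image_of_mem _ hφ))
    rw [hu] at h3
    exact h3

theorem Hb {l c : ℝ → V} (hl : Bd l) (hc : Bd c) {s₀ s₁ s₂ s₃ : ℝ}
    (h30 : s₃ ≤ s₀ + 2 * π) (b0 : ¬ arcGood l c s₀ s₁) (b1 : ¬ arcGood l c s₁ s₂)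
    (b2 : ¬ arcGood l c s₂ s₃) : Bad3 l c := by
  obtain ⟨T0, hT0, g0⟩ := bad_finite b0
  obtain ⟨T1, hT1, g1⟩ := bad_finite b1
  obtain ⟨T2, hT2, g2⟩ := bad_finite b2
  have le_of : ∀ (T : Finset ℝ) (s t : ℝ), (∀ φ ∈ T, s ≤ φ ∧ φ ≤ t) →
      (¬ ∃ p : V, ∀ φ ∈ T, c φ - p ∈ body l) → s ≤ t := by
    intro T s t h1 h2
    by_contra h3
    push Not at h3
    apply h2
    refine ⟨0, fun φ hφ => ?_⟩
    have := h1 φ hφ
    linarith [this.1, this.2]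
  have h01 := le_of _ _ _ hT0 g0
  have h12 := le_of _ _ _ hT1 g1
  have h23 := le_of _ _ _ hT2 g2
  obtain ⟨f0, hf0, f1, hf1, f2, hf2, P0, Q0, η0, h01', h12', hη0, hcr0, H0⟩ :=
    Ab hl hc (a := s₀) T0 (fun φ hφ => ⟨(hT0 φ hφ).1, by linarith [(hT0 φ hφ).2]⟩) g0
  obtain ⟨f3, hf3, f4, hf4, f5, hf5, P1, Q1, η1, h34, h45, hη1, hcr1, H1⟩ :=
    Ab hl hc (a := s₀) T1 (fun φ hφ => ⟨by linarith [(hT1 φ hφ).1],
      by linarith [(hT1 φ hφ).2]⟩) g1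
  obtain ⟨f6, hf6, f7, hf7, f8, hf8, P2, Q2, η2, h67, h78, hη2, hcr2, H2⟩ :=
    Ab hl hc (a := s₀) T2 (fun φ hφ => ⟨by linarith [(hT2 φ hφ).1],
      by linarith [(hT2 φ hφ).2]⟩) g2
  have h23' : f2 ≤ f3 := (hT0 f2 hf2).2.trans (hT1 f3 hf3).1
  have h56 : f5 ≤ f6 := (hT1 f5 hf5).2.trans (hT2 f6 hf6).1
  have h08 : f8 ≤ f0 + 2 * π := by
    have e1 := (hT2 f8 hf8).2
    have e2 := (hT0 f0 hf0).1
    linarith
  refine ⟨fun j => match j with
      | 0 => f0 | 1 => f1 | 2 => f2 | 3 => f3 | 4 => f4 | 5 => f5 | 6 => f6 | 7 => f7 | _ => f8,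
    fun j => match j with | 0 => P0 | 1 => P1 | _ => P2,
    fun j => match j with | 0 => Q0 | 1 => Q1 | _ => Q2,
    min η0 (min η1 η2), lt_min hη0 (lt_min hη1 hη2), ?_, h08, ?_⟩
  · refine monotone_nat_of_le_succ fun n => ?_
    match n with
    | 0 => exact h01'
    | 1 => exact h12'
    | 2 => exact h23'
    | 3 => exact h34
    | 4 => exact h45
    | 5 => exact h56
    | 6 => exact h67
    | 7 => exact h78
    | (n + 8) => exact le_rfl
  · intro k hk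
    have m0 : min η0 (min η1 η2) ≤ η0 := min_le_left _ _
    have m1 : min η0 (min η1 η2) ≤ η1 := (min_le_right _ _).trans (min_le_left _ _)
    have m2 : min η0 (min η1 η2) ≤ η2 := (min_le_right _ _).trans (min_le_right _ _)
    interval_cases k
    · exact ⟨hcr0, fun ψ₁ ψ₂ ψ₃ => (add_le_add le_rfl m0).trans (H0 ψ₁ ψ₂ ψ₃)⟩
    · exact ⟨hcr1, fun ψ₁ ψ₂ ψ₃ => (add_le_add le_rfl m1).trans (H1 ψ₁ ψ₂ ψ₃)⟩
    · exact ⟨hcr2, fun ψ₁ ψ₂ ψ₃ => (add_le_add le_rfl m2).trans (H2 ψ₁ ψ₂ ψ₃)⟩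

/-- the body of `c` is covered by three translates of `L` unless `Bad3 l c` -/
theorem cover' {l c : ℝ → V} (hl : Bd l) (hc : Bd c) {L : Set V} (hLc : Convex ℝ L)
    (g : V →ₗ[ℝ] ℝ) (hT : TieP L g) {d : ℝ} (hd : 0 < d)
    (hsub : ∀ x ∈ body l, ∀ v : V, ‖v‖ ≤ d → x + v ∈ L) (hb : ¬ Bad3 l c) :
    ∃ p : Fin 3 → V, ∀ y ∈ body c, ∃ k, y - p k ∈ L := by
  refine cover hc hLc g hT hd hsub ?_ ⟨l 0, fun θ => hl.supp θ 0⟩
  intro s₀ s₁ s₂ s₃ _ _ _ h30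
  by_contra hcon
  push Not at hcon
  exact hb (Hb hl hc h30 hcon.1 hcon.2.1 hcon.2.2)

end H27EB
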